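import Pool.Agent.helper4.GA.Spec

set_option autoImplicit false

/-! # MP_3c0a64_an, row ga:CNC: the exponential moment along the branches -/

open Finset
open Pool.Agent.helper32.Cant

namespace Pool.Agent.GA

lemma CNC_ind_nonneg (p : Prop) : 0 ≤ ind p := by unfold ind; split_ifs <;> norm_num

lemma CNC_ind_le (p : Prop) : ind p ≤ 1 := by unfold ind; split_ifs <;> norm_num

lemma CNC_exp (t : ℝ) (h0 : 0 ≤ t) (h1 : t ≤ 1) : Real.exp t ≤ 1 + 2 * t := by
  have h := convexOn_exp.2 (Set.mem_univ (0 : ℝ)) (Set.mem_univ (1 : ℝ))
    (show 0 ≤ 1 - t by linarith) h0 (by ring)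
  have h2 := Real.exp_one_lt_d9
  simp only [smul_eq_mul, mul_zero, mul_one, zero_add, Real.exp_zero] at h
  nlinarith

theorem CNC : CNC_stmt := by
  intro X n sh R w hw L
  induction L with
  | nil =>
    intro Y
    simp [gfs, ncs]
  | cons a L ih =>
    cases L with
    | nil =>
      intro Y
      simp [gfs, ncs]
    | cons b l =>
      intro Y
      classical
      rcases Y.eq_empty_or_nonempty with hYe | hYn
      · subst hYe
        simp
      set N : ℝ := ∑ x ∈ Y, w x with hN
      have hNpos : 0 < N := sum_pos (fun x _ => hw x) hYn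
      set q : ℝ := nc n sh R w a b Y with hq
      have hgf0 : ∀ x, 0 ≤ gf n sh R w a b Y x := by
        intro x
        unfold gf
        exact div_nonneg (sum_nonneg fun y _ => mul_nonneg (hw y).le (CNC_ind_nonneg _)) hNpos.le
      have hgf1 : ∀ x, gf n sh R w a b Y x ≤ 1 := by
        intro x
        unfold gf
        rw [div_le_one hNpos]
        refine sum_le_sum fun y _ => ?_
        have h1 := CNC_ind_le (far n sh a b (R x) (R y))
        have h2 := (hw y).le
        nlinarith
      have hsumgf : ∑ x ∈ Y, w x * gf n sh R w a b Y x = N * q := by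
        rw [hq]
        unfold nc gf
        rw [← hN]
        have : ∀ x ∈ Y, w x * ((∑ y ∈ Y, w y * ind (far n sh a b (R x) (R y))) / N)
            = (∑ y ∈ Y, w x * w y * ind (far n sh a b (R x) (R y))) / N := by
          intro x _
          rw [← mul_div_assoc, mul_sum]
          congr 1
          refine sum_congr rfl fun y _ => ?_
          ring
        rw [sum_congr rfl this, ← sum_div]
        field_simp
      have hmaps : ∀ x ∈ Y, rc n sh b (R x) ∈ Y.image (fun x => rc n sh b (R x)) :=
        fun x hx => mem_image_of_mem _ hx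
      have hfib : ∑ x ∈ Y, w x * Real.exp (gfs n sh R w (a :: b :: l) Y x
            - 2 * ncs n sh R w (a :: b :: l) Y x)
          ≤ ∑ x ∈ Y, Real.exp (-(2 * q)) * (w x * Real.exp (gf n sh R w a b Y x)) := by
        rw [← sum_fiberwise_of_maps_to hmaps, ← sum_fiberwise_of_maps_to hmaps
          (fun x => Real.exp (-(2 * q)) * (w x * Real.exp (gf n sh R w a b Y x)))]
        refine sum_le_sum fun r' _ => ?_
        set Y' : Finset X := {x ∈ Y | rc n sh b (R x) = r'} with hY'
        set G : ℝ := (∑ y ∈ Y, w y * ind ((3 : ℤ) ^ (b - a) ≤ 81 * |(r' : ℤ) - rc n sh b (R y)|)) / N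
          with hG
        have hgfx : ∀ x ∈ Y', gf n sh R w a b Y x = G := by
          intro x hx
          rw [hY', mem_filter] at hx
          unfold gf far
          rw [hx.2]
        have e1 : ∀ x ∈ Y', w x * Real.exp (gfs n sh R w (a :: b :: l) Y x
            - 2 * ncs n sh R w (a :: b :: l) Y x)
            = Real.exp (-(2 * q)) * Real.exp G * (w x * Real.exp (gfs n sh R w (b :: l) Y' x
              - 2 * ncs n sh R w (b :: l) Y' x)) := by
          intro x hx
          have h1 := hgfx x hx
          have hx' : rc n sh b (R x) = r' := by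
            rw [hY', mem_filter] at hx; exact hx.2
          have h2 : gfs n sh R w (a :: b :: l) Y x = G + gfs n sh R w (b :: l) Y' x := by
            rw [gfs, h1, hx', hY']
          have h3 : ncs n sh R w (a :: b :: l) Y x = q + ncs n sh R w (b :: l) Y' x := by
            rw [ncs, hx', hY', hq]
          rw [h2, h3, show G + gfs n sh R w (b :: l) Y' x - 2 * (q + ncs n sh R w (b :: l) Y' x)
            = -(2 * q) + G + (gfs n sh R w (b :: l) Y' x - 2 * ncs n sh R w (b :: l) Y' x) by ring,
            Real.exp_add, Real.exp_add]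
          ring
        have e2 : ∀ x ∈ Y', Real.exp (-(2 * q)) * (w x * Real.exp (gf n sh R w a b Y x))
            = Real.exp (-(2 * q)) * Real.exp G * w x := by
          intro x hx
          rw [hgfx x hx]
          ring
        rw [sum_congr rfl e1, sum_congr rfl e2, ← mul_sum, ← mul_sum]
        exact mul_le_mul_of_nonneg_left (ih Y') (by positivity)
      refine hfib.trans ?_
      rw [← mul_sum]
      have h1 : ∑ x ∈ Y, w x * Real.exp (gf n sh R w a b Y x) ≤ N * (1 + 2 * q) := by
        calc ∑ x ∈ Y, w x * Real.exp (gf n sh R w a b Y x)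
            ≤ ∑ x ∈ Y, (w x + 2 * (w x * gf n sh R w a b Y x)) := by
              refine sum_le_sum fun x _ => ?_
              have := mul_le_mul_of_nonneg_left (CNC_exp _ (hgf0 x) (hgf1 x)) (hw x).le
              linarith
          _ = N + 2 * (N * q) := by rw [sum_add_distrib, ← mul_sum, hsumgf]
          _ = N * (1 + 2 * q) := by ring
      have h2 : 1 + 2 * q ≤ Real.exp (2 * q) := by
        have := Real.add_one_le_exp (2 * q)
        linarith
      have h3 : Real.exp (-(2 * q)) * Real.exp (2 * q) = 1 := by
        rw [← Real.exp_add]; simp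
      have hE : 0 < Real.exp (-(2 * q)) := Real.exp_pos _
      calc Real.exp (-(2 * q)) * ∑ x ∈ Y, w x * Real.exp (gf n sh R w a b Y x)
          ≤ Real.exp (-(2 * q)) * (N * (1 + 2 * q)) := mul_le_mul_of_nonneg_left h1 hE.le
        _ ≤ Real.exp (-(2 * q)) * (N * Real.exp (2 * q)) :=
            mul_le_mul_of_nonneg_left (mul_le_mul_of_nonneg_left h2 hNpos.le) hE.le
        _ = N * (Real.exp (-(2 * q)) * Real.exp (2 * q)) := by ring
        _ = N := by rw [h3, mul_one]

end Pool.Agent.GA
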