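import Pool.Agent.helper4.GA.Spec

set_option autoImplicit false

/-! # MP_3c0a64_an, row ga:NOD: one node of the potential -/

open Finset
open Pool.Agent.helper32.Cant

namespace Pool.Agent.GA

/-- the angle of the phase -/
noncomputable def NOD_th (ζ : ℝ) (d r : ℕ) : ℝ := 4 * Real.pi * ζ * r / 3 ^ d

lemma NOD_ph (ζ : ℝ) (d r : ℕ) : ph ζ d r = Complex.exp ((NOD_th ζ d r : ℝ) * Complex.I) := by
  unfold ph NOD_th
  congr 1
  push_cast
  ring

/-- the angles of a far pair are not close -/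
lemma NOD_cos (ζ : ℝ) (d r s : ℕ) (h1 : 1 / 8 ≤ ζ) (h2 : ζ ≤ 3 / 8)
    (hlt : |(r : ℤ) - s| < 3 ^ d) (hfar : (3 : ℤ) ^ d ≤ 81 * |(r : ℤ) - s|) :
    Real.cos (NOD_th ζ d r - NOD_th ζ d s) ≤ 1 - 4 / 60000 := by
  have h3 : (0 : ℝ) < 3 ^ d := by positivity
  have hlt' : |(r : ℝ) - s| < 3 ^ d := by exact_mod_cast hlt
  have hfar' : (3 : ℝ) ^ d ≤ 81 * |(r : ℝ) - s| := by exact_mod_cast hfar
  set D : ℝ := |(r : ℝ) - s| with hD
  set t : ℝ := 2 * ζ * D / 3 ^ d with ht
  have ht1 : 1 / 324 ≤ t := by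
    rw [ht, le_div_iff₀ h3]
    nlinarith
  have ht2 : t ≤ 3 / 4 := by
    rw [ht, div_le_iff₀ h3]
    have : 0 ≤ D := abs_nonneg _
    nlinarith
  have hcos : Real.cos (NOD_th ζ d r - NOD_th ζ d s) = 1 - 2 * Real.sin (Real.pi * t) ^ 2 := by
    have e1 : Real.cos (NOD_th ζ d r - NOD_th ζ d s) = Real.cos (2 * (Real.pi * t)) := by
      rw [← Real.cos_abs (NOD_th ζ d r - NOD_th ζ d s)]
      congr 1
      have : NOD_th ζ d r - NOD_th ζ d s = (4 * Real.pi * ζ / 3 ^ d) * ((r : ℝ) - s) := by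
        unfold NOD_th; ring
      rw [this, abs_mul, abs_of_nonneg (by have := Real.pi_pos; positivity), ht, hD]
      ring
    rw [e1, Real.cos_two_mul, Real.cos_sq']
    ring
  rw [hcos]
  have hs : 1 / 162 ≤ Real.sin (Real.pi * t) := by
    rcases le_total t (1 / 2) with h | h
    · have h5 := Real.mul_le_sin (x := Real.pi * t) (by have := Real.pi_pos; positivity)
        (by have := Real.pi_pos; nlinarith)
      have h6 : 2 / Real.pi * (Real.pi * t) = 2 * t := by
        have := Real.pi_ne_zero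
        field_simp
      rw [h6] at h5
      linarith
    · have h5 := Real.mul_le_sin (x := Real.pi * (1 - t))
        (by have := Real.pi_pos; apply mul_nonneg <;> linarith)
        (by have := Real.pi_pos; nlinarith)
      have h6 : 2 / Real.pi * (Real.pi * (1 - t)) = 2 * (1 - t) := by
        have := Real.pi_ne_zero
        field_simp
      rw [h6] at h5
      have h7 : Real.sin (Real.pi * (1 - t)) = Real.sin (Real.pi * t) := by
        rw [show Real.pi * (1 - t) = Real.pi - Real.pi * t by ring, Real.sin_pi_sub]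
      rw [h7] at h5
      linarith
  nlinarith

/-- a weighted sum of unit vectors -/
lemma NOD_sq {X : Type} (Y : Finset X) (w θ : X → ℝ) :
    ‖∑ x ∈ Y, (w x : ℂ) * Complex.exp ((θ x : ℝ) * Complex.I)‖ ^ 2
      = ∑ x ∈ Y, ∑ y ∈ Y, w x * w y * Real.cos (θ x - θ y) := by
  have e1 : ∀ x, (w x : ℂ) * Complex.exp ((θ x : ℝ) * Complex.I)
      = ((w x * Real.cos (θ x) : ℝ) : ℂ) + ((w x * Real.sin (θ x) : ℝ) : ℂ) * Complex.I := by
    intro x
    rw [Complex.exp_mul_I, ← Complex.ofReal_cos, ← Complex.ofReal_sin]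
    push_cast
    ring
  have e2 : ∑ x ∈ Y, (w x : ℂ) * Complex.exp ((θ x : ℝ) * Complex.I)
      = ((∑ x ∈ Y, w x * Real.cos (θ x) : ℝ) : ℂ)
        + ((∑ x ∈ Y, w x * Real.sin (θ x) : ℝ) : ℂ) * Complex.I := by
    rw [sum_congr rfl fun x _ => e1 x, sum_add_distrib, ← sum_mul]
    push_cast
    rfl
  rw [e2, Complex.sq_norm, Complex.normSq_add_mul_I, sq, sq, sum_mul_sum, sum_mul_sum,
    ← sum_add_distrib]
  refine sum_congr rfl fun x _ => ?_
  rw [← sum_add_distrib]
  refine sum_congr rfl fun y _ => ?_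
  rw [Real.cos_sub]
  ring

theorem NOD : NOD_stmt := by
  intro X n sh a b r ζ R w Y hab hbn hz1 hz2 hw hR hY
  classical
  -- the fibres exhaust `Y`
  have hmaps : ∀ x ∈ Y, rc n sh b (R x) ∈ range (3 ^ (n + 1)) := by
    intro x _
    rw [mem_range]
    unfold rc
    exact lt_of_le_of_lt (Nat.div_le_self _ _) (hR x)
  have hs1 : ∑ r' ∈ range (3 ^ (n + 1)), (∑ x ∈ Y with rc n sh b (R x) = r', w x)
      = ∑ x ∈ Y, w x := sum_fiberwise_of_maps_to hmaps w
  have hs2 : ∑ r' ∈ range (3 ^ (n + 1)),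
        ((∑ x ∈ Y with rc n sh b (R x) = r', w x : ℝ) : ℂ) * ph ζ (b - a) r'
      = ∑ x ∈ Y, (w x : ℂ) * Complex.exp ((NOD_th ζ (b - a) (rc n sh b (R x)) : ℝ)
          * Complex.I) := by
    rw [← sum_fiberwise_of_maps_to hmaps (fun x => (w x : ℂ) *
      Complex.exp ((NOD_th ζ (b - a) (rc n sh b (R x)) : ℝ) * Complex.I))]
    refine sum_congr rfl fun r' _ => ?_
    push_cast
    rw [sum_mul]
    refine sum_congr rfl fun x hx => ?_
    rw [mem_filter] at hx
    rw [hx.2, NOD_ph]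
  rw [hs1, hs2]
  set N : ℝ := ∑ x ∈ Y, w x with hN
  set S : ℝ := ‖∑ x ∈ Y, (w x : ℂ) * Complex.exp ((NOD_th ζ (b - a) (rc n sh b (R x)) : ℝ)
          * Complex.I)‖ with hS
  rcases Y.eq_empty_or_nonempty with hYe | hYn
  · subst hYe
    simp [hN, hS]
  have hNpos : 0 < N := sum_pos (fun x _ => hw x) hYn
  set Q : ℝ := ∑ x ∈ Y, ∑ y ∈ Y, w x * w y * ind (far n sh a b (R x) (R y)) with hQ
  have hnc : nc n sh R w a b Y = Q / N ^ 2 := rfl
  have hQ0 : 0 ≤ Q := by
    refine sum_nonneg fun x _ => sum_nonneg fun y _ => ?_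
    have h1 := (hw x).le
    have h2 := (hw y).le
    have h3 : 0 ≤ ind (far n sh a b (R x) (R y)) := by unfold ind; split_ifs <;> norm_num
    positivity
  have hNN : N ^ 2 = ∑ x ∈ Y, ∑ y ∈ Y, w x * w y := by rw [hN, sq, sum_mul_sum]
  have hQN : Q ≤ N ^ 2 := by
    rw [hNN]
    refine sum_le_sum fun x _ => sum_le_sum fun y _ => ?_
    have h1 := (hw x).le
    have h2 := (hw y).le
    have h3 : ind (far n sh a b (R x) (R y)) ≤ 1 := by unfold ind; split_ifs <;> norm_num
    have h4 : 0 ≤ w x * w y := by positivity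
    nlinarith
  -- cells of level `b` within the cell of level `a`
  have hcell : ∀ x ∈ Y, r * 3 ^ (b - a) ≤ rc n sh b (R x) ∧
      rc n sh b (R x) < (r + 1) * 3 ^ (b - a) := by
    intro x hx
    have h1 := hY x hx
    unfold rc at h1 ⊢
    have h2 : (R x + sh) / 3 ^ (n - b) / 3 ^ (b - a) = r := by
      rw [Nat.div_div_eq_div_mul, ← pow_add, show n - b + (b - a) = n - a by omega, h1]
    have h3 : 0 < 3 ^ (b - a) := by positivity
    constructor
    · rw [← h2]; exact Nat.div_mul_le_self _ _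
    · exact (Nat.div_lt_iff_lt_mul h3).mp (by rw [h2]; exact Nat.lt_succ_self _)
  have hS2 : S ^ 2 ≤ N ^ 2 - 4 / 60000 * Q := by
    rw [hS, NOD_sq, hNN, hQ, mul_sum, ← sum_sub_distrib]
    refine sum_le_sum fun x hx => ?_
    rw [mul_sum, ← sum_sub_distrib]
    refine sum_le_sum fun y hy => ?_
    have h4 : 0 ≤ w x * w y := mul_nonneg (hw x).le (hw y).le
    have h5 : Real.cos (NOD_th ζ (b - a) (rc n sh b (R x)) - NOD_th ζ (b - a) (rc n sh b (R y)))
        ≤ 1 - 4 / 60000 * ind (far n sh a b (R x) (R y)) := by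
      by_cases hf : far n sh a b (R x) (R y)
      · rw [ind, if_pos hf, mul_one]
        refine NOD_cos ζ (b - a) _ _ hz1 hz2 ?_ hf
        have hx1 := hcell x hx
        have hy1 := hcell y hy
        have hx2 : (r : ℤ) * 3 ^ (b - a) ≤ rc n sh b (R x) := by exact_mod_cast hx1.1
        have hx3 : (rc n sh b (R x) : ℤ) < (r + 1) * 3 ^ (b - a) := by exact_mod_cast hx1.2
        have hy2 : (r : ℤ) * 3 ^ (b - a) ≤ rc n sh b (R y) := by exact_mod_cast hy1.1
        have hy3 : (rc n sh b (R y) : ℤ) < (r + 1) * 3 ^ (b - a) := by exact_mod_cast hy1.2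
        rw [abs_lt]
        constructor <;> nlinarith
      · rw [ind, if_neg hf, mul_zero, sub_zero]
        exact Real.cos_le_one _
    calc w x * w y * Real.cos _ ≤ w x * w y * (1 - 4 / 60000 * ind (far n sh a b (R x) (R y))) :=
          mul_le_mul_of_nonneg_left h5 h4
      _ = w x * w y - 4 / 60000 * (w x * w y * ind (far n sh a b (R x) (R y))) := by ring
  set q : ℝ := nc n sh R w a b Y with hq
  have hqQ : Q = q * N ^ 2 := by
    rw [hnc]
    field_simp
  have hq0 : 0 ≤ q := by rw [hnc]; positivity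
  have hq1 : q ≤ 1 := by
    rw [hnc, div_le_one (by positivity)]
    exact hQN
  have hS0 : 0 ≤ S := norm_nonneg _
  have hSle : S ≤ N * (1 - 2 * q / 60000) := by
    have h1 : 0 ≤ N * (1 - 2 * q / 60000) := by
      apply mul_nonneg hNpos.le
      linarith
    refine le_of_sq_le_sq ?_ h1
    have h2 : S ^ 2 ≤ N ^ 2 * (1 - 4 * q / 60000) := by
      calc S ^ 2 ≤ N ^ 2 - 4 / 60000 * Q := hS2
        _ = N ^ 2 * (1 - 4 * q / 60000) := by rw [hqQ]; ring
    have h3 : N ^ 2 * (1 - 4 * q / 60000) ≤ (N * (1 - 2 * q / 60000)) ^ 2 := by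
      have : (N * (1 - 2 * q / 60000)) ^ 2 = N ^ 2 * (1 - 4 * q / 60000)
          + N ^ 2 * (2 * q / 60000) ^ 2 := by ring
      rw [this]
      have : 0 ≤ N ^ 2 * (2 * q / 60000) ^ 2 := by positivity
      linarith
    linarith
  have hexp : 1 - q / 60000 ≤ Real.exp (-(q / 60000)) := by
    have := Real.add_one_le_exp (-(q / 60000))
    linarith
  calc (N + S) / 2 ≤ (N + N * (1 - 2 * q / 60000)) / 2 := by linarith
    _ = N * (1 - q / 60000) := by ring
    _ ≤ N * Real.exp (-(q / 60000)) := mul_le_mul_of_nonneg_left hexp hNpos.le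

end Pool.Agent.GA
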