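import Pool.Agent.helper4.GA.Spec

set_option autoImplicit false

/-! # MP_3c0a64_an, row ga:SMU: the sum of the multipliers over the frequencies -/

open Finset
open Pool.Agent.helper32.Cant

namespace Pool.Agent.GA

/-- `∑_(i < m) i² ≤ m³/3` -/
lemma SMU_sq (m : ℕ) : ∑ i ∈ range m, ((i : ℝ)) ^ 2 ≤ (m : ℝ) ^ 3 / 3 := by
  induction m with
  | zero => simp
  | succ m ih =>
    rw [sum_range_succ]
    push_cast
    have : (0 : ℝ) ≤ m := by positivity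
    nlinarith

/-- restricted sums over an initial segment -/
lemma SMU_res (N : ℕ) (p : ℕ → Prop) [DecidablePred p] (h : ℕ → ℝ) (s : Finset ℕ)
    (hh : ∀ i, 0 ≤ h i) (hs : ∀ i < N, p i → i ∈ s) :
    ∑ i ∈ range N, (if p i then h i else 0) ≤ ∑ i ∈ s, h i := by
  rw [← sum_filter]
  refine sum_le_sum_of_subset_of_nonneg ?_ fun i _ _ => hh i
  intro i hi
  rw [mem_filter, mem_range] at hi
  exact hs i hi.1 hi.2

/-- `∑_(m < i < N) 1/i² ≤ 1/m` -/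
lemma SMU_inv (m N : ℕ) (hm : 1 ≤ m) :
    ∑ i ∈ range N, (if m < i then ((i : ℝ) ^ 2)⁻¹ else 0) ≤ (m : ℝ)⁻¹ := by
  rcases Nat.le_total m N with h | h
  · have h1 := SMU_res N (fun i => m < i) (fun i => ((i : ℝ) ^ 2)⁻¹) (Ioc m N)
      (fun i => by positivity) (fun i hi hp => mem_Ioc.2 ⟨hp, hi.le⟩)
    refine h1.trans ((sum_Ioc_inv_sq_le_sub (by omega) h).trans ?_)
    have : (0 : ℝ) ≤ (N : ℝ)⁻¹ := by positivity
    linarith
  · have h0 : ∑ i ∈ range N, (if m < i then ((i : ℝ) ^ 2)⁻¹ else 0) = 0 := by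
      refine sum_eq_zero fun i hi => ?_
      rw [mem_range] at hi
      rw [if_neg (by omega)]
    rw [h0]
    positivity

theorem SMU (hMUL : MUL_stmt) (hNRM : NRM_stmt) : SMU_stmt := by
  intro n κ k x₁ e F hn hκk hk he hx₁ hF hFb
  set L : ℕ := 3 ^ (2 * n - (k + 1)) with hL
  have hML : 3 ^ (2 * n) = 3 ^ (k + 1) * L := by
    rw [hL, ← pow_add]
    congr 1
    omega
  have hMLr : ((3 ^ (2 * n) : ℕ) : ℝ) = 3 ^ (k + 1) * L := by exact_mod_cast hML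
  have hLpos : (0 : ℝ) < L := by rw [hL]; positivity
  set Lr : ℝ := (L : ℝ) with hLr
  have hpi : Real.pi ^ 2 ≤ 9.87 := by
    have h1 := Real.pi_lt_d4
    have h2 := Real.pi_pos
    nlinarith
  have hpi0 : 0 ≤ Real.pi ^ 2 := by positivity
  -- the three bounds of the multiplier
  have hm1 : ∀ ξ : ZMod (3 ^ (2 * n)), mult L ξ ≤ 4 * Lr ^ 2 := fun ξ => (hMUL _ L ξ).1
  have hm2 : ∀ ξ : ZMod (3 ^ (2 * n)), mult L ξ ≤ 4 * Real.pi ^ 2 * nrm ξ ^ 2 * Lr ^ 2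
      / 9 ^ (k + 1) := by
    intro ξ
    refine ((hMUL _ L ξ).2.1).trans (le_of_eq ?_)
    rw [hMLr, show (9 : ℝ) ^ (k + 1) = (3 ^ (k + 1)) ^ 2 by rw [← pow_mul, mul_comm, pow_mul]; norm_num]
    field_simp
    ring
  have hm3 : ∀ ξ : ZMod (3 ^ (2 * n)), nrm ξ ^ 2 * mult L ξ ≤ 9 ^ (k + 1) * Lr ^ 2 := by
    intro ξ
    refine ((hMUL _ L ξ).2.2.1).trans (le_of_eq ?_)
    rw [hMLr, show (9 : ℝ) ^ (k + 1) = (3 ^ (k + 1)) ^ 2 by rw [← pow_mul, mul_comm, pow_mul]; norm_num]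
    ring
  have hm0 : ∀ ξ : ZMod (3 ^ (2 * n)), 0 ≤ mult L ξ := fun ξ => (hMUL _ L ξ).2.2.2
  set x₀ : ℕ := 3 * n * 3 ^ κ with hx₀
  have hx₀1 : 1 ≤ x₀ := by
    rw [hx₀]
    have : 1 ≤ 3 ^ κ := Nat.one_le_pow _ _ (by norm_num)
    nlinarith
  -- the majorants
  let ga : ℕ → ℝ := fun i => if i < x₀ then 4 * Real.pi ^ 2 * Lr ^ 2 / 9 ^ (k + 1) * (i : ℝ) ^ 2 else 0
  let gb1 : ℕ → ℝ := fun i => if 1 ≤ i ∧ i ≤ 3 ^ k then
    144 * (n : ℝ) ^ 2 * 9 ^ κ * (4 * Real.pi ^ 2 * Lr ^ 2 / 9 ^ (k + 1)) else 0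
  let gb2 : ℕ → ℝ := fun i => if 3 ^ k < i then ((i : ℝ) ^ 2)⁻¹ else 0
  let gee : ℕ → ℝ := fun i => if 1 ≤ i ∧ i ≤ x₁ then 72 * e * Lr ^ 2 else 0
  let gc : ℕ → ℝ := fun i => if x₁ < i then ((i : ℝ) ^ 2)⁻¹ else 0
  let g : ℕ → ℝ := fun i => ga i + gb1 i + 144 * (n : ℝ) ^ 2 * 9 ^ κ * (4 * Lr ^ 2) * gb2 i
    + gee i + 9 ^ (k + 1) * Lr ^ 2 * gc i
  have hga0 : ∀ i, 0 ≤ ga i := by
    intro i; simp only [ga]; split_ifs
    · positivity
    · exact le_rfl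
  have hgb10 : ∀ i, 0 ≤ gb1 i := by
    intro i; simp only [gb1]; split_ifs
    · positivity
    · exact le_rfl
  have hgb20 : ∀ i, 0 ≤ gb2 i := by
    intro i; simp only [gb2]; split_ifs
    · positivity
    · exact le_rfl
  have hgee0 : ∀ i, 0 ≤ gee i := by
    intro i; simp only [gee]; split_ifs
    · positivity
    · exact le_rfl
  have hgc0 : ∀ i, 0 ≤ gc i := by
    intro i; simp only [gc]; split_ifs
    · positivity
    · exact le_rfl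
  have hcb0 : 0 ≤ 144 * (n : ℝ) ^ 2 * 9 ^ κ * (4 * Lr ^ 2) := by positivity
  have hcc0 : 0 ≤ 9 ^ (k + 1) * Lr ^ 2 := by positivity
  have hg0 : ∀ i, 0 ≤ g i := by
    intro i
    simp only [g]
    have h1 := hga0 i
    have h2 := hgb10 i
    have h3 := mul_nonneg hcb0 (hgb20 i)
    have h4 := hgee0 i
    have h5 := mul_nonneg hcc0 (hgc0 i)
    linarith
  -- pointwise
  have hpt : ∀ ξ : ZMod (3 ^ (2 * n)), mult L ξ * F ξ ≤ g ξ.valMinAbs.natAbs := by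
    intro ξ
    set i : ℕ := ξ.valMinAbs.natAbs with hi
    have hnrm : nrm ξ = (i : ℝ) := by
      unfold nrm
      rw [hi, Nat.cast_natAbs, Int.cast_abs]
    have h1 := hga0 i
    have h2 := hgb10 i
    have h3 := mul_nonneg hcb0 (hgb20 i)
    have h4 := hgee0 i
    have h5 := mul_nonneg hcc0 (hgc0 i)
    have hM0 := hm0 ξ
    have hFξ := hF ξ
    have hMF : mult L ξ * F ξ ≤ mult L ξ := by nlinarith
    simp only [g]
    rcases Nat.lt_or_ge i x₀ with hlt | hge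
    · have : mult L ξ ≤ ga i := by
        simp only [ga]
        rw [if_pos hlt]
        refine (hm2 ξ).trans (le_of_eq ?_)
        rw [hnrm]
        ring
      linarith
    · rcases Nat.lt_or_ge x₁ i with hlt' | hge'
      · have hipos : (0 : ℝ) < i := by
          have : 0 < i := by omega
          exact_mod_cast this
        have : mult L ξ ≤ 9 ^ (k + 1) * Lr ^ 2 * gc i := by
          simp only [gc]
          rw [if_pos hlt', ← div_eq_mul_inv, le_div_iff₀ (by positivity)]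
          have := hm3 ξ
          rw [hnrm] at this
          linarith
        linarith
      · have hi1 : 1 ≤ i := le_trans hx₀1 hge
        have hipos : (0 : ℝ) < i := by
          have : 0 < i := by omega
          exact_mod_cast this
        have hge1 : 3 * (n : ℝ) * 3 ^ κ ≤ nrm ξ := by
          rw [hnrm]
          rw [hx₀] at hge
          exact_mod_cast hge
        have hle1 : nrm ξ ≤ x₁ := by
          rw [hnrm]
          exact_mod_cast hge'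
        have hFb' := hFb ξ hge1 hle1
        rw [hnrm] at hFb'
        have e1 : mult L ξ * F ξ ≤ mult L ξ * (18 * (8 * (n : ℝ) ^ 2 * 9 ^ κ / (i : ℝ) ^ 2 + e)) :=
          mul_le_mul_of_nonneg_left hFb' hM0
        have e2 : mult L ξ * (18 * (8 * (n : ℝ) ^ 2 * 9 ^ κ / (i : ℝ) ^ 2 + e))
            = 144 * (n : ℝ) ^ 2 * 9 ^ κ * (mult L ξ / (i : ℝ) ^ 2) + 18 * e * mult L ξ := by
          field_simp
          ring
        have e3 : 18 * e * mult L ξ ≤ gee i := by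
          simp only [gee]
          rw [if_pos ⟨hi1, hge'⟩]
          have := mul_le_mul_of_nonneg_left (hm1 ξ) (show 0 ≤ 18 * e by positivity)
          linarith
        have e4 : 144 * (n : ℝ) ^ 2 * 9 ^ κ * (mult L ξ / (i : ℝ) ^ 2)
            ≤ gb1 i + 144 * (n : ℝ) ^ 2 * 9 ^ κ * (4 * Lr ^ 2) * gb2 i := by
          have hc : 0 ≤ 144 * (n : ℝ) ^ 2 * 9 ^ κ := by positivity
          rcases Nat.lt_or_ge (3 ^ k) i with hk1 | hk1
          · have hb : mult L ξ / (i : ℝ) ^ 2 ≤ 4 * Lr ^ 2 * gb2 i := by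
              simp only [gb2]
              rw [if_pos hk1, ← div_eq_mul_inv]
              exact div_le_div_of_nonneg_right (hm1 ξ) (by positivity)
            have := mul_le_mul_of_nonneg_left hb hc
            linarith
          · have hb : mult L ξ / (i : ℝ) ^ 2 ≤ 4 * Real.pi ^ 2 * Lr ^ 2 / 9 ^ (k + 1) := by
              rw [div_le_iff₀ (by positivity)]
              have := hm2 ξ
              rw [hnrm] at this
              refine this.trans (le_of_eq ?_)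
              ring
            have h6 := mul_le_mul_of_nonneg_left hb hc
            have h7 : gb1 i = 144 * (n : ℝ) ^ 2 * 9 ^ κ *
                (4 * Real.pi ^ 2 * Lr ^ 2 / 9 ^ (k + 1)) := by
              simp only [gb1]
              rw [if_pos ⟨hi1, hk1⟩]
            rw [← h7] at h6
            linarith
        linarith
  -- the sums
  have hsum : ∑ ξ : ZMod (3 ^ (2 * n)), mult L ξ * F ξ
      ≤ 2 * ∑ i ∈ range (3 ^ (2 * n) + 1), g i :=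
    (sum_le_sum fun ξ _ => hpt ξ).trans (hNRM _ g hg0)
  set N : ℕ := 3 ^ (2 * n) + 1 with hN
  have hSg : ∑ i ∈ range N, g i = ∑ i ∈ range N, ga i + ∑ i ∈ range N, gb1 i
      + 144 * (n : ℝ) ^ 2 * 9 ^ κ * (4 * Lr ^ 2) * ∑ i ∈ range N, gb2 i
      + ∑ i ∈ range N, gee i + 9 ^ (k + 1) * Lr ^ 2 * ∑ i ∈ range N, gc i := by
    simp only [g]
    rw [sum_add_distrib, sum_add_distrib, sum_add_distrib, sum_add_distrib, mul_sum, mul_sum]
  have hx₀r : (x₀ : ℝ) = 3 * n * 3 ^ κ := by rw [hx₀]; push_cast; ring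
  have hSa : ∑ i ∈ range N, ga i ≤ 4 * Real.pi ^ 2 * Lr ^ 2 / 9 ^ (k + 1) * ((x₀ : ℝ) ^ 3 / 3) := by
    have h1 := SMU_res N (fun i => i < x₀)
      (fun i => 4 * Real.pi ^ 2 * Lr ^ 2 / 9 ^ (k + 1) * (i : ℝ) ^ 2) (range x₀)
      (fun i => by positivity) (fun i _ hp => mem_range.2 hp)
    refine h1.trans ?_
    rw [← mul_sum]
    exact mul_le_mul_of_nonneg_left (SMU_sq x₀) (by positivity)
  have hSb1 : ∑ i ∈ range N, gb1 i ≤ 3 ^ k *
      (144 * (n : ℝ) ^ 2 * 9 ^ κ * (4 * Real.pi ^ 2 * Lr ^ 2 / 9 ^ (k + 1))) := by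
    have h1 := SMU_res N (fun i => 1 ≤ i ∧ i ≤ 3 ^ k)
      (fun i => 144 * (n : ℝ) ^ 2 * 9 ^ κ * (4 * Real.pi ^ 2 * Lr ^ 2 / 9 ^ (k + 1)))
      (Icc 1 (3 ^ k)) (fun i => by positivity) (fun i _ hp => mem_Icc.2 hp)
    refine h1.trans (le_of_eq ?_)
    rw [sum_const, Nat.card_Icc, nsmul_eq_mul]
    push_cast [Nat.add_sub_cancel]
    ring
  have hSb2 : ∑ i ∈ range N, gb2 i ≤ ((3 : ℝ) ^ k)⁻¹ := by
    have h1 := SMU_inv (3 ^ k) N (Nat.one_le_pow _ _ (by norm_num))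
    push_cast at h1
    exact h1
  have hSe : ∑ i ∈ range N, gee i ≤ x₁ * (72 * e * Lr ^ 2) := by
    have h1 := SMU_res N (fun i => 1 ≤ i ∧ i ≤ x₁)
      (fun i => 72 * e * Lr ^ 2)
      (Icc 1 x₁) (fun i => by positivity) (fun i _ hp => mem_Icc.2 hp)
    refine h1.trans (le_of_eq ?_)
    rw [sum_const, Nat.card_Icc, nsmul_eq_mul]
    push_cast [Nat.add_sub_cancel]
    ring
  have hSc : ∑ i ∈ range N, gc i ≤ (x₁ : ℝ)⁻¹ := SMU_inv x₁ N hx₁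
  -- assembly
  have hk3 : (3 : ℝ) ^ k = 3 ^ κ * 3 ^ (k - κ) := by
    rw [← pow_add]; congr 1; omega
  have hk9 : (9 : ℝ) ^ k = 9 ^ κ * 9 ^ (k - κ) := by
    rw [← pow_add]; congr 1; omega
  have h93 : ∀ m : ℕ, (9 : ℝ) ^ m = 3 ^ m * 3 ^ m := by
    intro m; rw [← mul_pow]; norm_num
  have hx₁r : (0 : ℝ) < x₁ := by exact_mod_cast hx₁
  have h3κ : (0 : ℝ) < 3 ^ κ := by positivity
  have h3d : (0 : ℝ) < 3 ^ (k - κ) := by positivity
  set P : ℝ := 3 ^ κ with hP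
  set D : ℝ := 3 ^ (k - κ) with hD
  have h9κ : (9 : ℝ) ^ κ = P * P := h93 κ
  have h9d : (9 : ℝ) ^ (k - κ) = D * D := h93 _
  have h9k1 : (9 : ℝ) ^ (k + 1) = 9 * (P * P * (D * D)) := by
    rw [pow_succ, hk9, h9κ, h9d]; ring
  have hgoalcast : ((3 : ℝ) ^ (2 * n - (k + 1))) = Lr := by rw [hLr, hL]; push_cast; rfl
  rw [hgoalcast]
  unfold kap
  rw [h9d, ← hD]
  have tA : 2 * (4 * Real.pi ^ 2 * Lr ^ 2 / 9 ^ (k + 1) * ((x₀ : ℝ) ^ 3 / 3))
      ≤ Lr ^ 2 * P * (81 * (n : ℝ) ^ 3 / (D * D)) := by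
    rw [h9k1, hx₀r]
    have h1 : 2 * (4 * Real.pi ^ 2 * Lr ^ 2 / (9 * (P * P * (D * D))) * ((3 * (n : ℝ) * P) ^ 3 / 3))
        = Real.pi ^ 2 * (8 * (Lr ^ 2 * P * (n : ℝ) ^ 3 / (D * D))) := by
      field_simp
      ring
    rw [h1]
    have h2 : Lr ^ 2 * P * (81 * (n : ℝ) ^ 3 / (D * D)) = 81 * (Lr ^ 2 * P * (n : ℝ) ^ 3 / (D * D)) := by
      ring
    rw [h2]
    have h3 : 0 ≤ Lr ^ 2 * P * (n : ℝ) ^ 3 / (D * D) := by positivity
    nlinarith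
  have tB : 2 * (3 ^ k * (144 * (n : ℝ) ^ 2 * 9 ^ κ * (4 * Real.pi ^ 2 * Lr ^ 2 / 9 ^ (k + 1)))
      + 144 * (n : ℝ) ^ 2 * 9 ^ κ * (4 * Lr ^ 2) * ((3 : ℝ) ^ k)⁻¹)
      ≤ Lr ^ 2 * P * (2448 * (n : ℝ) ^ 2 / D) := by
    rw [h9k1, h9κ, hk3]
    have h1 : 2 * (P * D * (144 * (n : ℝ) ^ 2 * (P * P) * (4 * Real.pi ^ 2 * Lr ^ 2
          / (9 * (P * P * (D * D)))))
        + 144 * (n : ℝ) ^ 2 * (P * P) * (4 * Lr ^ 2) * (P * D)⁻¹)
        = (Real.pi ^ 2 * 128 + 1152) * (Lr ^ 2 * P * (n : ℝ) ^ 2 / D) := by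
      field_simp
      ring
    rw [h1]
    have h2 : Lr ^ 2 * P * (2448 * (n : ℝ) ^ 2 / D) = 2448 * (Lr ^ 2 * P * (n : ℝ) ^ 2 / D) := by
      ring
    rw [h2]
    have h3 : 0 ≤ Lr ^ 2 * P * (n : ℝ) ^ 2 / D := by positivity
    exact mul_le_mul_of_nonneg_right (by linarith) h3
  have tE : 2 * (x₁ * (72 * e * Lr ^ 2)) = Lr ^ 2 * P * (144 * e * (x₁ / P)) := by
    field_simp
    ring
  have tC : 2 * (9 ^ (k + 1) * Lr ^ 2 * (x₁ : ℝ)⁻¹) = Lr ^ 2 * P * (18 * (D * D) / (x₁ / P)) := by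
    rw [h9k1]
    field_simp
    ring
  have hcb := mul_le_mul_of_nonneg_left hSb2 hcb0
  have hcc := mul_le_mul_of_nonneg_left hSc hcc0
  calc ∑ ξ : ZMod (3 ^ (2 * n)), mult L ξ * F ξ ≤ 2 * ∑ i ∈ range N, g i := hsum
    _ ≤ 2 * (4 * Real.pi ^ 2 * Lr ^ 2 / 9 ^ (k + 1) * ((x₀ : ℝ) ^ 3 / 3))
        + 2 * (3 ^ k * (144 * (n : ℝ) ^ 2 * 9 ^ κ * (4 * Real.pi ^ 2 * Lr ^ 2 / 9 ^ (k + 1)))
          + 144 * (n : ℝ) ^ 2 * 9 ^ κ * (4 * Lr ^ 2) * ((3 : ℝ) ^ k)⁻¹)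
        + 2 * (x₁ * (72 * e * Lr ^ 2)) + 2 * (9 ^ (k + 1) * Lr ^ 2 * (x₁ : ℝ)⁻¹) := by
        rw [hSg]; linarith
    _ ≤ Lr ^ 2 * P * (81 * (n : ℝ) ^ 3 / (D * D)) + Lr ^ 2 * P * (2448 * (n : ℝ) ^ 2 / D)
        + Lr ^ 2 * P * (144 * e * (x₁ / P)) + Lr ^ 2 * P * (18 * (D * D) / (x₁ / P)) := by
        rw [tE, tC]; linarith
    _ = _ := by ring

end Pool.Agent.GA
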